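import Pool.Agent.X72.Td.A

open Finset

namespace Pool.Agent.X72.Td

/-- the colouring of the path vertices by the two hubs -/
def col (L i : ℕ) : Bool := decide ((i + i / L) % 2 = 0)

lemma col_add {L : ℕ} (hL : 0 < L) (h2 : L % 2 = 0) (i : ℕ) : col L (i + L) = !col L i := by
  unfold col
  rw [Nat.add_div_right _ hL]
  by_cases h : (i + i / L) % 2 = 0
  · have : ¬ (i + L + (i / L).succ) % 2 = 0 := by omega
    rw [decide_eq_true h, decide_eq_false this]
    rfl
  · have : (i + L + (i / L).succ) % 2 = 0 := by omega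
    rw [decide_eq_false h, decide_eq_true this]
    rfl

lemma col_add_mul {L : ℕ} (hL : 0 < L) (h2 : L % 2 = 0) (i s : ℕ) (hs : s % 2 = 1) :
    col L (i + L * s) = !col L i := by
  have key : ∀ r, col L (i + L * (2 * r)) = col L i := by
    intro r
    induction r with
    | zero => rfl
    | succ r ih =>
      have e : i + L * (2 * (r + 1)) = i + L * (2 * r) + L + L := by ring
      rw [e, col_add hL h2, col_add hL h2, Bool.not_not, ih]
  obtain ⟨r, rfl⟩ : ∃ r, s = 2 * r + 1 := ⟨s / 2, by omega⟩
  have e : i + L * (2 * r + 1) = i + L * (2 * r) + L := by ring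
  rw [e, col_add hL h2, key]

lemma col_succ {L : ℕ} (i : ℕ) (h : (i + 1) / L = i / L) : col L (i + 1) = !col L i := by
  unfold col
  rw [h]
  by_cases h : (i + i / L) % 2 = 0
  · have : ¬ (i + 1 + i / L) % 2 = 0 := by omega
    rw [decide_eq_true h, decide_eq_false this]
    rfl
  · have : (i + 1 + i / L) % 2 = 0 := by omega
    rw [decide_eq_false h, decide_eq_true this]
    rfl

/-- every vertex of the path has a neighbour of the other colour -/
lemma col_nb {L N i : ℕ} (hL : 2 ≤ L) (hi : i < L * N) :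
    ∃ j < L * N, (i + 1 = j ∨ j + 1 = i) ∧ col L j = !col L i := by
  have hLpos : 0 < L := by omega
  have hd := Nat.div_add_mod i L
  have hm := Nat.mod_lt i hLpos
  by_cases h : i % L + 1 < L
  · have h1 : (i + 1) / L = i / L := by
      rw [Nat.div_eq_iff hLpos]
      constructor
      · have : i / L * L = L * (i / L) := mul_comm _ _
        omega
      · have : i / L * L = L * (i / L) := mul_comm _ _
        omega
    refine ⟨i + 1, ?_, Or.inl rfl, col_succ i h1⟩
    -- i + 1 < L * N
    have h2 : i / L < N := by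
      rw [Nat.div_lt_iff_lt_mul hLpos, mul_comm]
      exact hi
    have h3 : L * (i / L + 1) ≤ L * N := Nat.mul_le_mul_left _ h2
    rw [mul_add, mul_one] at h3
    omega
  · obtain ⟨j, rfl⟩ : ∃ j, i = j + 1 := ⟨i - 1, by omega⟩
    have h1 : (j + 1) / L = j / L := by
      symm
      rw [Nat.div_eq_iff hLpos]
      have : (j + 1) / L * L = L * ((j + 1) / L) := mul_comm _ _
      constructor <;> omega
    refine ⟨j, by omega, Or.inr rfl, ?_⟩
    rw [col_succ j h1, Bool.not_not]

/-- the two-hub graph: a path with `n` vertices and two non-adjacent hubs, every vertex of the path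
joined to the hub of its colour -/
def hub (L n : ℕ) : SimpleGraph (Fin n ⊕ Bool) :=
  SimpleGraph.fromRel fun x y =>
    match x, y with
    | Sum.inl i, Sum.inl j => i.val + 1 = j.val
    | Sum.inl i, Sum.inr b => col L i.val = b
    | _, _ => False

section
variable {L n : ℕ}

lemma hub_ll (i j : Fin n) : (hub L n).Adj (Sum.inl i) (Sum.inl j) ↔
    i.val + 1 = j.val ∨ j.val + 1 = i.val := by
  rw [hub, SimpleGraph.fromRel_adj]
  constructor
  · rintro ⟨-, h | h⟩
    · exact Or.inl h
    · exact Or.inr h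
  · intro h
    refine ⟨?_, h⟩
    intro h2
    have := Sum.inl_injective h2
    subst this
    omega

lemma hub_lr (i : Fin n) (b : Bool) : (hub L n).Adj (Sum.inl i) (Sum.inr b) ↔ col L i.val = b := by
  rw [hub, SimpleGraph.fromRel_adj]
  constructor
  · rintro ⟨-, h | h⟩
    · exact h
    · exact h.elim
  · intro h
    exact ⟨by simp, Or.inl h⟩

lemma hub_rr (b b' : Bool) : ¬ (hub L n).Adj (Sum.inr b) (Sum.inr b') := by
  rw [hub, SimpleGraph.fromRel_adj]
  rintro ⟨-, h | h⟩
  · exact h
  · exact h

end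

lemma hub_diam {L N : ℕ} (hL : 2 ≤ L) (hN : 0 < N) : DiamLEThree (hub L (L * N)) := by
  -- path vertex to path vertex
  have nb : ∀ i : Fin (L * N), ∃ j : Fin (L * N), (hub L (L * N)).Adj (Sum.inl i) (Sum.inl j) ∧
      col L j.val = !col L i.val := by
    intro i
    obtain ⟨j, hj, h1, h2⟩ := col_nb hL i.2
    exact ⟨⟨j, hj⟩, (hub_ll _ _).2 h1, h2⟩
  have toHub : ∀ (i : Fin (L * N)) (b : Bool), ∃ p : (hub L (L * N)).Walk (Sum.inl i) (Sum.inr b),
      p.length ≤ 2 := by
    intro i b
    by_cases h : col L i.val = b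
    · exact ⟨((hub_lr i b).2 h).toWalk, by simp⟩
    · obtain ⟨j, hj1, hj2⟩ := nb i
      have : col L j.val = b := by
        rw [hj2]
        cases hb : col L i.val <;> cases b <;> simp_all
      exact ⟨SimpleGraph.Walk.cons hj1 ((hub_lr j b).2 this).toWalk, by simp⟩
  intro u v
  rcases u with i | b <;> rcases v with j | b'
  · obtain ⟨p, hp⟩ := toHub i (col L j.val)
    refine ⟨p.append ((hub_lr j _).2 rfl).symm.toWalk, ?_⟩
    rw [SimpleGraph.Walk.length_append]
    simp only [SimpleGraph.Walk.length_cons, SimpleGraph.Walk.length_nil]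
    omega
  · obtain ⟨p, hp⟩ := toHub i b'
    exact ⟨p, by omega⟩
  · obtain ⟨p, hp⟩ := toHub j b
    exact ⟨p.reverse, by rw [SimpleGraph.Walk.length_reverse]; omega⟩
  · -- hub to hub
    have hpos : 0 < L * N := by positivity
    let i0 : Fin (L * N) := ⟨0, hpos⟩
    by_cases hb : col L i0.val = b
    · obtain ⟨p, hp⟩ := toHub i0 b'
      refine ⟨SimpleGraph.Walk.cons ((hub_lr i0 b).2 hb).symm p, ?_⟩
      rw [SimpleGraph.Walk.length_cons]
      omega
    · obtain ⟨j, hj1, hj2⟩ := nb i0
      have : col L j.val = b := by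
        rw [hj2]
        cases hc : col L i0.val <;> cases b <;> simp_all
      obtain ⟨p, hp⟩ := toHub j b'
      refine ⟨SimpleGraph.Walk.cons ((hub_lr j b).2 this).symm p, ?_⟩
      rw [SimpleGraph.Walk.length_cons]
      omega

lemma hub_td {L n : ℕ} (k : ℕ) (hn : 2 ^ (k + 1) ≤ n) : ¬ TreedepthLE (hub L n) k := by
  have hpos : 0 < n := lt_of_lt_of_le (by positivity) hn
  apply not_treedepthLE _ k n
    (fun t => if h : t < n then Sum.inl ⟨t, h⟩ else Sum.inl ⟨0, hpos⟩) hn
  · intro t ht
    have h1 : t < n := by omega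
    simp only [dif_pos h1, dif_pos ht]
    rw [hub_ll]
    left
    rfl
  · intro i hi j hj h
    simp only [dif_pos hi, dif_pos hj] at h
    have := Sum.inl_injective h
    exact congrArg Fin.val this

/-- the position on the path -/
def pos {n : ℕ} : Fin n ⊕ Bool → ℕ
  | Sum.inl i => i.val
  | Sum.inr _ => 0

lemma eq_of_pos {n : ℕ} {x y : Fin n ⊕ Bool} (hx : ∀ b, x ≠ Sum.inr b) (hy : ∀ b, y ≠ Sum.inr b)
    (h : pos x = pos y) : x = y := by
  rcases x with i | b
  · rcases y with j | b
    · exact congrArg Sum.inl (Fin.ext h)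
    · exact absurd rfl (hy b)
  · exact absurd rfl (hx b)

/-- every cycle whose length is `2` plus an odd multiple of `L` contains both hubs -/
theorem cyc_hub {L n s : ℕ} (hL : 2 ≤ L) (h2 : L % 2 = 0) (hs : s % 2 = 1) (f : ℕ → Fin n ⊕ Bool)
    (hf : IsCyc (hub L n) (L * s + 2) f) (b : Bool) : ∃ i < L * s + 2, f i = Sum.inr b := by
  by_contra hno
  push Not at hno
  set a := L * s + 2 with ha
  obtain ⟨hinj, hadj⟩ := hf
  have hs1 : 1 ≤ s := by omega
  have hLs : 2 ≤ L * s := le_trans hL (Nat.le_mul_of_pos_right L (by omega))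
  have hapos : 0 < a := by omega
  have hmod : ∀ i, i % a < a := fun i => Nat.mod_lt i hapos
  -- values
  have hne : ∀ i k, k % a ≠ 0 → (i + k) % a ≠ i % a := by
    intro i k hk h
    apply hk
    have h3 : (i + k) % a = (i + 0) % a := by rw [h, add_zero]
    have := Nat.ModEq.add_left_cancel' i h3
    rw [Nat.ModEq] at this
    rw [this]
    exact Nat.zero_mod a
  have hadj' : ∀ i, (hub L n).Adj (f (i % a)) (f ((i + 1) % a)) := by
    intro i
    have := hadj (i % a) (hmod i)
    rwa [Nat.mod_add_mod] at this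
  have step : ∀ i, (∀ b, f (i % a) ≠ Sum.inr b) → (∀ b, f ((i + 1) % a) ≠ Sum.inr b) →
      pos (f (i % a)) + 1 = pos (f ((i + 1) % a)) ∨ pos (f ((i + 1) % a)) + 1 = pos (f (i % a)) := by
    intro i hi hi'
    have h3 := hadj' i
    rcases hx : f (i % a) with x | x
    · rcases hy : f ((i + 1) % a) with y | y
      · rw [hx, hy, hub_ll] at h3
        exact h3
      · exact absurd hy (hi' y)
    · exact absurd hx (hi x)
  by_cases hother : ∃ i0 < a, f i0 = Sum.inr (!b)
  · obtain ⟨i0, hi0, hi0'⟩ := hother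
    have hl : ∀ k, k < a - 1 → ∀ b', f ((i0 + 1 + k) % a) ≠ Sum.inr b' := by
      intro k hk b' h
      rcases Bool.eq_or_eq_not b' b with rfl | hb
      · exact hno _ (hmod _) h
      · rw [hb, ← hi0'] at h
        have h3 := hinj _ (hmod _) _ hi0 h
        have h4 := hne i0 (1 + k) (by rw [Nat.mod_eq_of_lt (by omega)]; omega)
        rw [← add_assoc, Nat.mod_eq_of_lt hi0] at h4
        exact h4 h3
    have hst := straight (fun k => pos (f ((i0 + 1 + k) % a))) (a - 2)
      (fun k hk => by
        have := step (i0 + 1 + k) (hl k (by omega)) (by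
          have := hl (k + 1) (by omega)
          rwa [← add_assoc] at this)
        simp only [← add_assoc]
        exact this)
      (fun k hk h => by
        have h3 := eq_of_pos (hl (k + 2) (by omega)) (hl k (by omega)) h
        have h4 := hinj _ (hmod _) _ (hmod _) h3
        have h5 := hne (i0 + 1 + k) 2 (by rw [Nat.mod_eq_of_lt (by omega)]; omega)
        rw [add_assoc (i0 + 1) k 2] at h5
        exact h5 h4)
    -- colours of the two ends
    have c1 : col L (pos (f ((i0 + 1 + 0) % a))) = !b := by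
      have h3 := hadj' i0
      rw [Nat.mod_eq_of_lt hi0, hi0'] at h3
      rcases hx : f ((i0 + 1) % a) with x | x
      · rw [hx] at h3
        exact (hub_lr _ _).1 h3.symm
      · exact absurd (by rw [add_zero]; exact hx) (hl 0 (by omega) x)
    have c2 : col L (pos (f ((i0 + 1 + (a - 2)) % a))) = !b := by
      have h3 := hadj' (i0 + 1 + (a - 2))
      have e : i0 + 1 + (a - 2) + 1 = i0 + a := by omega
      rw [e, Nat.add_mod_right, Nat.mod_eq_of_lt hi0, hi0'] at h3
      rcases hx : f ((i0 + 1 + (a - 2)) % a) with x | x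
      · rw [hx] at h3
        exact (hub_lr _ _).1 h3
      · exact absurd hx (hl (a - 2) (by omega) x)
    have ea : a - 2 = L * s := by omega
    have hcontra : ∀ x : ℕ, col L (x + L * s) = !col L x :=
      fun x => col_add_mul (by omega) h2 x s hs
    rcases hst with h | h
    · have h3 := h (a - 2) le_rfl
      rw [h3, ea, hcontra, c1] at c2
      cases b <;> simp at c2
    · have h3 := h (a - 2) le_rfl
      rw [← h3, ea, hcontra] at c1
      rw [ea] at c2
      rw [c2] at c1
      cases b <;> simp at c1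
  · push Not at hother
    have hl : ∀ k b', f (k % a) ≠ Sum.inr b' := by
      intro k b' h
      rcases Bool.eq_or_eq_not b' b with rfl | hb
      · exact hno _ (hmod _) h
      · rw [hb] at h
        exact hother _ (hmod _) h
    have hst := straight (fun k => pos (f (k % a))) a
      (fun k hk => step k (hl k) (hl (k + 1)))
      (fun k hk h => by
        have h3 := eq_of_pos (hl (k + 2)) (hl k) h
        have h4 := hinj _ (hmod _) _ (hmod _) h3
        exact hne k 2 (by rw [Nat.mod_eq_of_lt (by omega)]; omega) h4)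
    rcases hst with h | h
    · have h3 := h a le_rfl
      simp only [Nat.mod_self, Nat.zero_mod] at h3
      omega
    · have h3 := h a le_rfl
      simp only [Nat.mod_self, Nat.zero_mod] at h3
      omega

/-- the two-hub graph contains no `F` with two cycles of the given lengths meeting in a clique -/
theorem hub_free {W : Type} (F : SimpleGraph W) {L s t : ℕ} (hL : 2 ≤ L) (h2 : L % 2 = 0)
    (hs : s % 2 = 1) (ht : t % 2 = 1) (f g : ℕ → W) (hf : IsCyc F (L * s + 2) f)
    (hg : IsCyc F (L * t + 2) g)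
    (hfg : ∀ i < L * s + 2, ∀ i' < L * s + 2, ∀ j < L * t + 2, ∀ j' < L * t + 2,
      f i = g j → f i' = g j' → f i ≠ f i' → F.Adj (f i) (f i')) (n : ℕ) :
    ¬ Contains (hub L n) F := by
  rintro ⟨φ, hφ, hadj⟩
  have h1 : ∀ (a : ℕ) (e : ℕ → W), IsCyc F a e → IsCyc (hub L n) a (fun i => φ (e i)) := by
    intro a e he
    exact ⟨fun i hi j hj h => he.1 i hi j hj (hφ h), fun i hi => hadj _ _ (he.2 i hi)⟩
  obtain ⟨i, hi, hi'⟩ := cyc_hub hL h2 hs _ (h1 _ f hf) true
  obtain ⟨k, hk, hk'⟩ := cyc_hub hL h2 hs _ (h1 _ f hf) false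
  obtain ⟨j, hj, hj'⟩ := cyc_hub hL h2 ht _ (h1 _ g hg) true
  obtain ⟨l, hl, hl'⟩ := cyc_hub hL h2 ht _ (h1 _ g hg) false
  have h3 := hfg i hi k hk j hj l hl (hφ (hi'.trans hj'.symm)) (hφ (hk'.trans hl'.symm)) (by
    intro h
    rw [h, hk'] at hi'
    simp at hi')
  have h4 := hadj _ _ h3
  rw [hi', hk'] at h4
  exact hub_rr _ _ h4

end Pool.Agent.X72.Td
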