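import Pool.Agent.X72.Td.A

open Finset

namespace Pool.Agent.X72.Td

/-- the fan: a path with `n` vertices and one more vertex joined to all of them -/
def fan (n : ℕ) : SimpleGraph (Option (Fin n)) :=
  SimpleGraph.fromRel fun x y =>
    match x, y with
    | none, some _ => True
    | some i, some j => i.val + 1 = j.val
    | _, _ => False

lemma fan_none {n : ℕ} (i : Fin n) : (fan n).Adj none (some i) := by
  rw [fan, SimpleGraph.fromRel_adj]
  exact ⟨by simp, Or.inl trivial⟩

lemma fan_some {n : ℕ} (i j : Fin n) : (fan n).Adj (some i) (some j) ↔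
    i.val + 1 = j.val ∨ j.val + 1 = i.val := by
  rw [fan, SimpleGraph.fromRel_adj]
  constructor
  · rintro ⟨-, h | h⟩
    · exact Or.inl h
    · exact Or.inr h
  · intro h
    refine ⟨?_, h⟩
    intro h2
    have := Option.some_injective _ h2
    subst this
    omega

lemma fan_diam (n : ℕ) : DiamLEThree (fan n) := by
  intro u v
  rcases u with _ | i <;> rcases v with _ | j
  · exact ⟨SimpleGraph.Walk.nil, by simp⟩
  · exact ⟨(fan_none j).toWalk, by simp⟩
  · exact ⟨(fan_none i).symm.toWalk, by simp⟩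
  · exact ⟨SimpleGraph.Walk.cons (fan_none i).symm (fan_none j).toWalk, by simp⟩

lemma fan_td (k : ℕ) : ¬ TreedepthLE (fan (2 ^ (k + 1))) k := by
  have hpos : 0 < 2 ^ (k + 1) := by positivity
  apply not_treedepthLE _ k (2 ^ (k + 1))
    (fun t => if h : t < 2 ^ (k + 1) then some ⟨t, h⟩ else some ⟨0, hpos⟩) le_rfl
  · intro t ht
    have h1 : t < 2 ^ (k + 1) := by omega
    simp only [dif_pos h1, dif_pos ht]
    rw [fan_some]
    left
    rfl
  · intro i hi j hj h
    simp only [dif_pos hi, dif_pos hj] at h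
    have := Option.some_injective _ h
    exact congrArg Fin.val this

lemma fan_free {W : Type} (F : SimpleGraph W) (hne : Nonempty W)
    (hF : ∀ x : W, ¬ IsLinearForest (F.induce {x}ᶜ)) (n : ℕ) : ¬ Contains (fan n) F := by
  rintro ⟨φ, hφ, hadj⟩
  obtain ⟨x, hx⟩ : ∃ x : W, ∀ y, y ≠ x → φ y ≠ none := by
    by_cases h : ∃ x, φ x = none
    · obtain ⟨x, hx⟩ := h
      refine ⟨x, ?_⟩
      intro y hy h2
      exact hy (hφ (h2.trans hx.symm))
    · push Not at h
      exact ⟨Classical.arbitrary W, fun y _ => h y⟩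
  apply hF x
  have hsome : ∀ y : ({x}ᶜ : Set W), ∃ i : Fin n, φ y.1 = some i := by
    intro y
    have := hx y.1 y.2
    exact Option.ne_none_iff_exists'.1 this
  choose p hp using hsome
  refine ⟨fun y => (p y).val, ?_, ?_⟩
  · intro y y' h
    have h2 : p y = p y' := Fin.ext h
    apply Subtype.ext
    apply hφ
    rw [hp, hp, h2]
  · intro u v huv
    have h2 := hadj _ _ (SimpleGraph.induce_adj.1 huv)
    rw [hp, hp, fan_some] at h2
    exact h2

end Pool.Agent.X72.Td
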